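import Mathlib

/-!
# Maker-Breaker games played until the board is full

`Win T t E X`: the first player owns the cells `X`, the cells `E` are empty, all the other cells
belong to the second player; `t = true` if the first player is to move. She can reach a set `X`
with `T X`.
-/

set_option autoImplicit false

namespace Pool.Agent.HexUp

variable {α : Type*} [DecidableEq α]

/-- The first player can force `T`. -/
inductive Win (T : Finset α → Prop) : Bool → Finset α → Finset α → Prop
  | done (t : Bool) (E X : Finset α) : T X → Win T t E X
  | maker (E X : Finset α) (x : α) : x ∈ E → Win T false (E.erase x) (insert x X) → Win T true E X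
  | breaker (E X : Finset α) : E.Nonempty → (∀ y ∈ E, Win T true (E.erase y) X) → Win T false E X

variable {T T' : Finset α → Prop}

theorem Win.top (hT : ∀ X Y, X ⊆ Y → T X → T Y) {t : Bool} {E X : Finset α} (h : Win T t E X) :
    T (X ∪ E) := by
  induction h with
  | done t E X h => exact hT _ _ Finset.subset_union_left h
  | maker E X x hx _ ih =>
    refine hT _ _ ?_ ih
    intro z hz
    simp only [Finset.mem_union, Finset.mem_insert, Finset.mem_erase] at hz ⊢
    rcases hz with (rfl | h) | h
    · exact Or.inr hx
    · exact Or.inl h
    · exact Or.inr h.2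
  | breaker E X hE _ ih =>
    obtain ⟨y, hy⟩ := hE
    refine hT _ _ ?_ (ih y hy)
    exact Finset.union_subset_union_right (Finset.erase_subset _ _)

/-- Extra stones never hurt, wasted moves of the opponent never hurt. -/
theorem Win.mono (hT : ∀ X Y, X ⊆ Y → T X → T Y) {t : Bool} {E X : Finset α} (h : Win T t E X) :
    ∀ E' X' : Finset α, X ⊆ X' → E ⊆ E' ∪ X' → Win T t E' X' := by
  induction h with
  | done t E X h => exact fun E' X' hX _ => Win.done _ _ _ (hT _ _ hX h)
  | maker E X x hx hw ih =>
    intro E' X' hX hE
    rcases Finset.mem_union.1 (hE hx) with hxE | hxX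
    · refine Win.maker _ _ x hxE (ih _ _ (Finset.insert_subset_insert _ hX) ?_)
      intro z hz
      rw [Finset.mem_erase] at hz
      rcases Finset.mem_union.1 (hE hz.2) with h | h
      · exact Finset.mem_union_left _ (Finset.mem_erase.2 ⟨hz.1, h⟩)
      · exact Finset.mem_union_right _ (Finset.mem_insert_of_mem h)
    · rcases E'.eq_empty_or_nonempty with rfl | ⟨x', hx'⟩
      · refine Win.done _ _ _ (hT _ _ ?_ ((Win.maker _ _ x hx hw).top hT))
        rw [Finset.empty_union] at hE
        exact Finset.union_subset hX hE
      · refine Win.maker _ _ x' hx' (ih _ _ ?_ ?_)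
        · refine Finset.insert_subset (Finset.mem_insert_of_mem hxX) ?_
          exact hX.trans (Finset.subset_insert _ _)
        · intro z hz
          rw [Finset.mem_erase] at hz
          by_cases hzx : z = x'
          · subst hzx
            exact Finset.mem_union_right _ (Finset.mem_insert_self _ _)
          · rcases Finset.mem_union.1 (hE hz.2) with h | h
            · exact Finset.mem_union_left _ (Finset.mem_erase.2 ⟨hzx, h⟩)
            · exact Finset.mem_union_right _ (Finset.mem_insert_of_mem h)
  | breaker E X hne hw ih =>
    intro E' X' hX hE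
    rcases E'.eq_empty_or_nonempty with rfl | hne'
    · refine Win.done _ _ _ (hT _ _ ?_ ((Win.breaker _ _ hne hw).top hT))
      rw [Finset.empty_union] at hE
      exact Finset.union_subset hX hE
    · refine Win.breaker _ _ hne' fun y' hy' => ?_
      obtain ⟨y, hy, hyy⟩ : ∃ y ∈ E, y' ∈ E → y = y' := by
        by_cases h : y' ∈ E
        · exact ⟨y', h, fun _ => rfl⟩
        · obtain ⟨y, hy⟩ := hne
          exact ⟨y, hy, fun h' => absurd h' h⟩
      refine ih y hy _ _ hX fun z hz => ?_
      rw [Finset.mem_erase] at hz
      rcases Finset.mem_union.1 (hE hz.2) with h | h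
      · refine Finset.mem_union_left _ (Finset.mem_erase.2 ⟨?_, h⟩)
        rintro rfl
        exact hz.1 (hyy hz.2).symm
      · exact Finset.mem_union_right _ h

/-- Change of the winning sets. -/
theorem Win.change {t : Bool} {E X : Finset α} (h : Win T t E X) (S : Finset α)
    (hTS : ∀ X, T X → T' (X ∪ S)) : Win T' t E (X ∪ S) := by
  induction h with
  | done t E X h => exact Win.done _ _ _ (hTS _ h)
  | maker E X x hx _ ih =>
    refine Win.maker _ _ x hx ?_
    rwa [Finset.insert_union] at ih
  | breaker E X hne _ ih => exact Win.breaker _ _ hne ih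

/-- The converse for added stones. -/
theorem Win.unchange {S : Finset α} {t : Bool} {E Y : Finset α} (h : Win T t E Y) :
    ∀ X, Y = X ∪ S → Win (fun Z => T (Z ∪ S)) t E X := by
  induction h with
  | done t E Y h =>
    rintro X rfl
    exact Win.done _ _ _ h
  | maker E Y x hx _ ih =>
    rintro X rfl
    exact Win.maker _ _ x hx (ih _ (Finset.insert_union _ _ _).symm)
  | breaker E Y hne _ ih =>
    rintro X rfl
    exact Win.breaker _ _ hne fun y hy => ih y hy X rfl

/-- Renaming the cells. -/
theorem Win.map {β : Type*} [DecidableEq β] (e : α ≃ β) {T' : Finset β → Prop}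
    (hTT : ∀ X, T X → T' (X.map e.toEmbedding)) {t : Bool} {E X : Finset α} (h : Win T t E X) :
    Win T' t (E.map e.toEmbedding) (X.map e.toEmbedding) := by
  induction h with
  | done t E X h => exact Win.done _ _ _ (hTT _ h)
  | maker E X x hx _ ih =>
    refine Win.maker _ _ (e x) (Finset.mem_map_of_mem e.toEmbedding hx) ?_
    rw [Finset.map_insert, Finset.map_erase] at ih
    exact ih
  | breaker E X hne _ ih =>
    refine Win.breaker _ _ (hne.map) fun y hy => ?_
    obtain ⟨x, hx, rfl⟩ := Finset.mem_map.1 hy
    have := ih x hx
    rw [Finset.map_erase] at this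
    exact this

/-- Determinacy: if there are no draws and the first player can not force `T`, the second player
can force `T'`. -/
theorem dual {V : Finset α} (hd : ∀ X ⊆ V, T X ∨ T' (V \ X)) (n : ℕ) :
    ∀ E X : Finset α, E.card = n → E ⊆ V → X ⊆ V → Disjoint E X →
      (¬ Win T true E X → Win T' false E (V \ (E ∪ X))) ∧
      (¬ Win T false E X → Win T' true E (V \ (E ∪ X))) := by
  induction n with
  | zero =>
    intro E X hn _ hX _
    rw [Finset.card_eq_zero] at hn
    subst hn
    have key : ∀ t, ¬ Win T t ∅ X → T' (V \ (∅ ∪ X)) := by
      intro t h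
      rw [Finset.empty_union]
      exact (hd X hX).resolve_left fun h' => h (Win.done _ _ _ h')
    exact ⟨fun h => Win.done _ _ _ (key _ h), fun h => Win.done _ _ _ (key _ h)⟩
  | succ n ih =>
    intro E X hn hE hX hEX
    have hne : E.Nonempty := by
      rw [← Finset.card_pos]
      omega
    constructor
    · intro h
      refine Win.breaker _ _ hne fun x hx => ?_
      have hxX : x ∉ X := fun h' => Finset.disjoint_left.1 hEX hx h'
      have h1 := (ih (E.erase x) (insert x X) (by rw [Finset.card_erase_of_mem hx]; omega)
        ((Finset.erase_subset _ _).trans hE) (Finset.insert_subset (hE hx) hX) (by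
          rw [Finset.disjoint_insert_right]
          exact ⟨Finset.notMem_erase _ _, Finset.disjoint_of_subset_left
            (Finset.erase_subset _ _) hEX⟩)).2 fun h' => h (Win.maker _ _ x hx h')
      have e : E.erase x ∪ insert x X = E ∪ X := by
        ext z
        simp only [Finset.mem_union, Finset.mem_insert, Finset.mem_erase]
        constructor
        · rintro (h | rfl | h)
          · exact Or.inl h.2
          · exact Or.inl hx
          · exact Or.inr h
        · rintro (h | h)
          · by_cases hz : z = x
            · exact Or.inr (Or.inl hz)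
            · exact Or.inl ⟨hz, h⟩
          · exact Or.inr (Or.inr h)
      rwa [e] at h1
    · intro h
      obtain ⟨y, hy, hyw⟩ : ∃ y ∈ E, ¬ Win T true (E.erase y) X := by
        by_contra hc
        push Not at hc
        exact h (Win.breaker _ _ hne hc)
      have h1 := (ih (E.erase y) X (by rw [Finset.card_erase_of_mem hy]; omega)
        ((Finset.erase_subset _ _).trans hE) hX
        (Finset.disjoint_of_subset_left (Finset.erase_subset _ _) hEX)).1 hyw
      refine Win.maker _ _ y hy ?_
      have hyX : y ∉ X := fun h' => Finset.disjoint_left.1 hEX hy h'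
      have e : V \ (E.erase y ∪ X) = insert y (V \ (E ∪ X)) := by
        ext z
        simp only [Finset.mem_sdiff, Finset.mem_union, Finset.mem_insert, Finset.mem_erase]
        constructor
        · rintro ⟨h1, h2⟩
          by_cases hz : z = y
          · exact Or.inl hz
          · exact Or.inr ⟨h1, fun h => h2 (h.imp (fun h => ⟨hz, h⟩) id)⟩
        · rintro (rfl | ⟨h1, h2⟩)
          · exact ⟨hE hy, fun h => h.elim (fun h => h.1 rfl) hyX⟩
          · exact ⟨h1, fun h => h2 (h.imp (fun h => h.2) id)⟩
      rwa [e] at h1

/-- Captured pair: a pair `p, q` of empty cells, one of which is enough. -/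
theorem Win.capture (hT : ∀ X Y, X ⊆ Y → T X → T Y) {c p q : α} (hpq : p ≠ q)
    (h1 : ∀ X, T' X → T (X ∪ {c, p})) (h2 : ∀ X, T' X → T (X ∪ {c, q})) {t : Bool}
    {E X : Finset α} (h : Win T' t E X) : p ∉ E → q ∉ E →
      Win T t (insert p (insert q E)) (insert c X) := by
  have u1 : ∀ X : Finset α, insert p (insert c X) = X ∪ {c, p} := by
    intro X
    ext z
    simp only [Finset.mem_insert, Finset.mem_union, Finset.mem_singleton]
    tauto
  have u2 : ∀ X : Finset α, insert q (insert c X) = X ∪ {c, q} := by
    intro X
    ext z
    simp only [Finset.mem_insert, Finset.mem_union, Finset.mem_singleton]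
    tauto
  have er : ∀ {E : Finset α} {x : α}, x ∈ E → p ∉ E → q ∉ E →
      (insert p (insert q E)).erase x = insert p (insert q (E.erase x)) := by
    intro E x hx hp hq
    have hxp : x ≠ p := fun h => hp (h ▸ hx)
    have hxq : x ≠ q := fun h => hq (h ▸ hx)
    rw [Finset.erase_insert_of_ne hxp.symm, Finset.erase_insert_of_ne hxq.symm]
  have ep : ∀ {E : Finset α}, p ∉ E → q ∉ E → (insert p (insert q E)).erase p = insert q E := by
    intro E hp hq
    rw [Finset.erase_insert]
    rw [Finset.mem_insert]
    exact fun h => h.elim hpq hp
  have eq' : ∀ {E : Finset α}, p ∉ E → q ∉ E → (insert p (insert q E)).erase q = insert p E := by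
    intro E hp hq
    rw [Finset.erase_insert_of_ne hpq, Finset.erase_insert hq]
  induction h with
  | done t E X h =>
    intro hp hq
    -- the first player to move
    have hm : ∀ E' : Finset α, p ∈ E' ∨ q ∈ E' → Win T true E' (insert c X) := by
      rintro E' (h' | h')
      · exact Win.maker _ _ p h' (Win.done _ _ _ (by rw [u1]; exact h1 _ h))
      · exact Win.maker _ _ q h' (Win.done _ _ _ (by rw [u2]; exact h2 _ h))
    cases t with
    | true => exact hm _ (Or.inl (Finset.mem_insert_self _ _))
    | false =>
      refine Win.breaker _ _ ⟨p, Finset.mem_insert_self _ _⟩ fun y _ => hm _ ?_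
      by_cases hy : y = p
      · right
        refine Finset.mem_erase.2 ⟨?_, by simp⟩
        rw [hy]
        exact hpq.symm
      · left
        exact Finset.mem_erase.2 ⟨Ne.symm hy, Finset.mem_insert_self _ _⟩
  | maker E X x hx _ ih =>
    intro hp hq
    have hi := ih (fun h => hp (Finset.mem_of_mem_erase h)) fun h => hq (Finset.mem_of_mem_erase h)
    refine Win.maker _ _ x (by simp [hx]) ?_
    rw [er hx hp hq, Finset.insert_comm x c]
    exact hi
  | breaker E X hne hw ih =>
    intro hp hq
    refine Win.breaker _ _ ⟨p, Finset.mem_insert_self _ _⟩ fun y hy => ?_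
    rw [Finset.mem_insert, Finset.mem_insert] at hy
    rcases hy with rfl | rfl | hy
    · rw [ep hp hq]
      refine Win.maker _ _ q (Finset.mem_insert_self _ _) ?_
      rw [Finset.erase_insert hq, u2]
      exact (Win.breaker _ _ hne hw).change _ h2
    · rw [eq' hp hq]
      refine Win.maker _ _ p (Finset.mem_insert_self _ _) ?_
      rw [Finset.erase_insert hp, u1]
      exact (Win.breaker _ _ hne hw).change _ h1
    · rw [er hy hp hq]
      exact ih y hy (fun h => hp (Finset.mem_of_mem_erase h))
        fun h => hq (Finset.mem_of_mem_erase h)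

end Pool.Agent.HexUp
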