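import Pool.Agent.HexUp.Y
import Pool.Agent.HexUp.Game

/-!
# A full Hex board has exactly one winner
-/

set_option autoImplicit false

namespace Pool.Agent.HexUp

open Pool.Agent.Lib_helper61

/-- The cells of the board. -/
noncomputable def board (n : ℕ) : Finset Cell := Finset.Ico (0 : ℤ) n ×ˢ Finset.Ico (0 : ℤ) n

theorem mem_board {n : ℕ} {p : Cell} : p ∈ board n ↔ OnBoard n p := by
  unfold board OnBoard
  simp only [Finset.mem_product, Finset.mem_Ico]
  tauto

/-- The colouring of the triangular board given by the stones `S` of the first player. -/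
def col (n : ℕ) (S : Finset Cell) (p : Cell) : Bool :=
  if (n : ℤ) ≤ p.1 then true else if (n : ℤ) ≤ p.2 then false else decide (p ∈ S)

theorem St.symm {m : ℕ} {c : Cell → Bool} {b : Bool} {p q : Cell} (h : St m c b p q) :
    St m c b q p := ⟨h.2.1, h.1, adj_symm h.2.2⟩

theorem rtg_symm {m : ℕ} {c : Cell → Bool} {b : Bool} {p q : Cell}
    (h : Relation.ReflTransGen (St m c b) p q) : Relation.ReflTransGen (St m c b) q p := by
  induction h with
  | refl => exact Relation.ReflTransGen.refl
  | tail _ h ih => exact Relation.ReflTransGen.head h.symm ih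

theorem rtg_end {m : ℕ} {c : Cell → Bool} {b : Bool} {p q : Cell} (hp : InT m p ∧ c p = b)
    (h : Relation.ReflTransGen (St m c b) p q) : InT m q ∧ c q = b := by
  rcases Relation.ReflTransGen.cases_tail h with rfl | ⟨z, -, hz⟩
  · exact hp
  · exact hz.2.1

theorem Conn.snoc {S : Finset Cell} {p q r : Cell} (h : Conn S p q) (hq : q ∈ S) (hr : r ∈ S)
    (ha : Adj q r) : Conn S p r := ⟨h.1, h.2.tail ⟨hq, hr, ha⟩⟩

theorem Conn.mem_right {S : Finset Cell} {p q : Cell} (h : Conn S p q) : q ∈ S := by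
  rcases Relation.ReflTransGen.cases_tail h.2 with h' | ⟨z, -, hz⟩
  · rw [h']; exact h.1
  · exact hz.2.1

theorem Conn.mono {S S' : Finset Cell} (hS : S ⊆ S') {p q : Cell} (h : Conn S p q) :
    Conn S' p q :=
  ⟨hS h.1, Relation.ReflTransGen.mono (fun _ _ h => ⟨hS h.1, hS h.2.1, h.2.2⟩) _ _ h.2⟩

theorem TopBottom.mono {n : ℕ} {S S' : Finset Cell} (hS : S ⊆ S') (h : TopBottom n S) :
    TopBottom n S' := by
  obtain ⟨p, q, hp, hq, h⟩ := h
  exact ⟨p, q, hp, hq, Conn.mono hS h⟩

theorem col_true_top {n : ℕ} {S : Finset Cell} {p : Cell} (h : col n S p = true)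
    (hp : p.1 < n) : p.2 < n ∧ p ∈ S := by
  unfold col at h
  rw [if_neg (by omega)] at h
  split_ifs at h with h1
  · exact ⟨by omega, by simpa using h⟩

/-- A chain in the triangular board gives a chain in the Hex board. -/
theorem topBottom_of_hasY {k : ℕ} {S : Finset Cell} (h : HasY (2 * k) (col (k + 1) S) true) :
    TopBottom (k + 1) S := by
  obtain ⟨x, u, v, w, hx, hu, -, hw, pu, -, pw⟩ := h
  have hcu := rtg_end hx pu
  have hcw := rtg_end hx pw
  have huw := (rtg_symm pu).trans pw
  push_cast at hw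
  have huS : u ∈ S := (col_true_top hcu.2 (by push_cast; omega)).2
  have key : ∀ {y : Cell}, Relation.ReflTransGen (St (2 * k) (col (k + 1) S) true) u y →
      (∃ q : Cell, q.1 = k ∧ Conn S u q) ∨ (y.1 < k + 1 ∧ Conn S u y) := by
    intro y hy
    induction hy with
    | refl => exact Or.inr ⟨by omega, huS, Relation.ReflTransGen.refl⟩
    | @tail y z _ hyz ih =>
      rcases ih with h | ⟨h1, h2⟩
      · exact Or.inl h
      · have hyS : y ∈ S := (col_true_top hyz.1.2 (by push_cast; omega)).2
        by_cases hz : z.1 < k + 1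
        · have hzS : z ∈ S := (col_true_top hyz.2.1.2 (by push_cast; omega)).2
          exact Or.inr ⟨hz, Conn.snoc h2 hyS hzS hyz.2.2⟩
        · refine Or.inl ⟨y, ?_, h2⟩
          have := hyz.2.2
          unfold Adj at this
          omega
  rcases key huw with ⟨q, hq, hc⟩ | ⟨h1, h2⟩
  · exact ⟨u, q, hu, by push_cast; omega, hc⟩
  · have hw2 := (col_true_top hcw.2 (by push_cast; omega)).1
    push_cast at hw2
    exact ⟨u, w, hu, by push_cast; omega, h2⟩

theorem st_of_board {k : ℕ} {S : Finset Cell} (hS : S ⊆ board (k + 1)) {p : Cell} (hp : p ∈ S) :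
    InT (2 * k) p ∧ col (k + 1) S p = true := by
  have h := mem_board.1 (hS hp)
  unfold OnBoard at h
  push_cast at h
  refine ⟨?_, ?_⟩
  · unfold InT
    push_cast
    omega
  · unfold col
    push_cast
    rw [if_neg (by omega), if_neg (by omega)]
    simpa using hp

theorem low_row {k : ℕ} {S : Finset Cell} {j : ℤ} (h0 : 0 ≤ j) (h1 : j + 1 ≤ k) :
    InT (2 * k) ((k : ℤ) + 1, j) ∧ col (k + 1) S ((k : ℤ) + 1, j) = true := by
  refine ⟨?_, ?_⟩
  · unfold InT
    push_cast
    omega
  · unfold col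
    push_cast
    rw [if_pos le_rfl]

theorem low_path {k : ℕ} {S : Finset Cell} (i : ℕ) : (i : ℤ) + 1 ≤ k →
    Relation.ReflTransGen (St (2 * k) (col (k + 1) S) true) ((k : ℤ) + 1, 0)
      ((k : ℤ) + 1, (i : ℤ)) := by
  induction i with
  | zero => exact fun _ => Relation.ReflTransGen.refl
  | succ i ih =>
    intro h
    push_cast at h ⊢
    refine (ih (by omega)).tail ⟨low_row (by omega) (by omega), low_row (by omega) (by omega), ?_⟩
    simp [Adj]

/-- A chain in the Hex board gives a chain in the triangular board. -/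
theorem hasY_of_topBottom {k : ℕ} {S : Finset Cell} (hS : S ⊆ board (k + 1))
    (h : TopBottom (k + 1) S) : HasY (2 * k) (col (k + 1) S) true := by
  obtain ⟨p, q, hp, hq, hc⟩ := h
  have hqS := Conn.mem_right hc
  have hpath : Relation.ReflTransGen (St (2 * k) (col (k + 1) S) true) p q :=
    Relation.ReflTransGen.mono
      (fun _ _ h => ⟨st_of_board hS h.1, st_of_board hS h.2.1, h.2.2⟩) _ _ hc.2
  have hqb := mem_board.1 (hS hqS)
  unfold OnBoard at hqb
  push_cast at hq hqb
  rcases Nat.eq_zero_or_pos k with hk | hk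
  · subst hk
    push_cast at hqb hq
    refine ⟨p, p, q, q, st_of_board hS hc.1, hp, by omega, ?_, Relation.ReflTransGen.refl, hpath,
      hpath⟩
    push_cast
    omega
  · obtain ⟨q1, q2⟩ := q
    simp only at hq hqb
    obtain rfl : q1 = k := by omega
    -- step to the row `k + 1`
    have hstep : ∃ i : ℕ, (i : ℤ) + 1 ≤ k ∧
        Adj ((k : ℤ), q2) ((k : ℤ) + 1, (i : ℤ)) := by
      refine ⟨(q2 - 1).toNat, ?_, ?_⟩
      · omega
      · right
        left
        refine ⟨rfl, ?_⟩
        simp only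
        omega
    obtain ⟨i, hi, hadj⟩ := hstep
    have h1 : Relation.ReflTransGen (St (2 * k) (col (k + 1) S) true) p ((k : ℤ) + 1, (i : ℤ)) :=
      hpath.tail ⟨st_of_board hS hqS, low_row (by omega) hi, hadj⟩
    have h2 := h1.trans (rtg_symm (low_path i hi))
    obtain ⟨k', rfl⟩ : ∃ k', k = k' + 1 := ⟨k - 1, by omega⟩
    have h3 := h2.trans (low_path (S := S) k' (by push_cast; omega))
    refine ⟨p, p, _, _, st_of_board hS hc.1, hp, ?_, ?_, Relation.ReflTransGen.refl, h2, h3⟩
    · rfl
    · push_cast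
      ring

/-! ### Transposition -/

theorem adj_swap {p q : Cell} (h : Adj p q) : Adj p.swap q.swap := by
  unfold Adj at h ⊢
  simp only [Prod.fst_swap, Prod.snd_swap]
  omega

theorem HasY.transpose {m : ℕ} {c c' : Cell → Bool} {b : Bool}
    (hcc : ∀ p, InT m p → c p = b → c' p.swap = !b) (h : HasY m c b) : HasY m c' (!b) := by
  obtain ⟨x, u, v, w, hx, hu, hv, hw, pu, pv, pw⟩ := h
  have hT : ∀ {p : Cell}, InT m p → InT m p.swap := by
    intro p hp
    unfold InT at hp ⊢
    simp only [Prod.fst_swap, Prod.snd_swap]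
    omega
  have hpath : ∀ {y z : Cell}, Relation.ReflTransGen (St m c b) y z →
      Relation.ReflTransGen (St m c' (!b)) y.swap z.swap := by
    intro y z h
    refine Relation.ReflTransGen.lift (p := St m c' (!b)) Prod.swap ?_ _ _ h
    intro a a' haa
    exact ⟨⟨hT haa.1.1, hcc a haa.1.1 haa.1.2⟩, ⟨hT haa.2.1.1, hcc a' haa.2.1.1 haa.2.1.2⟩,
      adj_swap haa.2.2⟩
  refine ⟨x.swap, v.swap, u.swap, w.swap, ⟨hT hx.1, hcc x hx.1 hx.2⟩, hv, hu, ?_, hpath pv,
    hpath pu, hpath pw⟩
  simp only [Prod.fst_swap, Prod.snd_swap]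
  omega

/-- The transposed set. -/
def tr (S : Finset Cell) : Finset Cell := S.map (Equiv.prodComm ℤ ℤ).toEmbedding

theorem mem_tr {S : Finset Cell} {p : Cell} : p ∈ tr S ↔ p.swap ∈ S := by
  unfold tr
  rw [Finset.mem_map_equiv]
  rfl

theorem tr_tr (S : Finset Cell) : tr (tr S) = S := by
  ext p
  rw [mem_tr, mem_tr, Prod.swap_swap]

theorem tr_mono {S S' : Finset Cell} (h : S ⊆ S') : tr S ⊆ tr S' := by
  intro p hp
  rw [mem_tr] at hp ⊢
  exact h hp

theorem tr_board (n : ℕ) : tr (board n) = board n := by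
  ext p
  rw [mem_tr, mem_board, mem_board]
  unfold OnBoard
  simp only [Prod.fst_swap, Prod.snd_swap]
  tauto

theorem conn_tr {S : Finset Cell} {p q : Cell} (h : Conn S p q) : Conn (tr S) p.swap q.swap := by
  refine ⟨mem_tr.2 (by rw [Prod.swap_swap]; exact h.1), ?_⟩
  refine Relation.ReflTransGen.lift (p := fun u v => u ∈ HexUp.tr S ∧ v ∈ HexUp.tr S ∧ Adj u v)
    Prod.swap ?_ _ _ h.2
  intro a a' haa
  exact ⟨mem_tr.2 (by rw [Prod.swap_swap]; exact haa.1),
    mem_tr.2 (by rw [Prod.swap_swap]; exact haa.2.1), adj_swap haa.2.2⟩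

theorem leftRight_iff {n : ℕ} {S : Finset Cell} : LeftRight n S ↔ TopBottom n (tr S) := by
  constructor
  · rintro ⟨p, q, hp, hq, h⟩
    exact ⟨p.swap, q.swap, hp, hq, conn_tr h⟩
  · rintro ⟨p, q, hp, hq, h⟩
    have := conn_tr h
    rw [tr_tr] at this
    exact ⟨p.swap, q.swap, hp, hq, this⟩

theorem col_swap {k : ℕ} {S : Finset Cell} {p : Cell} (hp : InT (2 * k) p) :
    col (k + 1) (tr (board (k + 1) \ S)) p.swap = !col (k + 1) S p := by
  unfold InT at hp
  push_cast at hp
  unfold col
  push_cast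
  simp only [Prod.fst_swap, Prod.snd_swap]
  by_cases h1 : (k : ℤ) + 1 ≤ p.1
  · rw [if_pos h1, if_neg (by omega), if_pos h1]
    rfl
  · rw [if_neg h1, if_neg h1]
    by_cases h2 : (k : ℤ) + 1 ≤ p.2
    · rw [if_pos h2, if_pos h2]
      rfl
    · rw [if_neg h2, if_neg h2]
      have hb : p ∈ board (k + 1) := by
        rw [mem_board]
        unfold OnBoard
        push_cast
        omega
      by_cases hS : p ∈ S <;> simp [mem_tr, hS, hb]

/-- There are no draws. -/
theorem no_draw {n : ℕ} (hn : 1 ≤ n) (S : Finset Cell) :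
    TopBottom n S ∨ LeftRight n (board n \ S) := by
  obtain ⟨k, rfl⟩ : ∃ k, n = k + 1 := ⟨n - 1, by omega⟩
  obtain ⟨b, hb⟩ := exists_hasY (2 * k) (col (k + 1) S)
  cases b with
  | true => exact Or.inl (topBottom_of_hasY hb)
  | false =>
    right
    rw [leftRight_iff]
    refine topBottom_of_hasY (HasY.transpose (b := false) ?_ hb)
    intro p hp hc
    rw [col_swap hp, hc]

/-- Two winners are impossible. -/
theorem not_both {n : ℕ} (hn : 1 ≤ n) {S W : Finset Cell} (hS : S ⊆ board n) (hW : W ⊆ board n)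
    (hd : Disjoint S W) (h1 : TopBottom n S) (h2 : LeftRight n W) : False := by
  obtain ⟨k, rfl⟩ : ∃ k, n = k + 1 := ⟨n - 1, by omega⟩
  have a1 := hasY_of_topBottom hS h1
  rw [leftRight_iff] at h2
  have hWS : W ⊆ board (k + 1) \ S := by
    intro p hp
    rw [Finset.mem_sdiff]
    exact ⟨hW hp, fun h => Finset.disjoint_left.1 hd h hp⟩
  have h3 : TopBottom (k + 1) (tr (board (k + 1) \ S)) := TopBottom.mono (tr_mono hWS) h2
  have hsub : tr (board (k + 1) \ S) ⊆ board (k + 1) := by
    have := tr_mono (Finset.sdiff_subset (s := board (k + 1)) (t := S))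
    rwa [tr_board] at this
  have a2 := hasY_of_topBottom hsub h3
  have a3 : HasY (2 * k) (col (k + 1) S) (!true) := by
    refine HasY.transpose (b := true) ?_ a2
    intro p hp hc
    have hp' : InT (2 * k) p.swap := by
      unfold InT at hp ⊢
      simp only [Prod.fst_swap, Prod.snd_swap]
      omega
    have := col_swap (S := S) hp'
    rw [Prod.swap_swap, hc] at this
    cases h : col (k + 1) S p.swap
    · rfl
    · rw [h] at this
      exact absurd this (by decide)
  have := a1.unique a3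
  exact absurd this (by decide)

end Pool.Agent.HexUp
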