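import Pool.Agent.HexUp.Board

/-!
# The first player wins Hex although the second player owns two cells of an acute corner
-/

set_option autoImplicit false

namespace Pool.Agent.HexUp

open Pool.Agent.Lib_helper61

/-- The first player has joined the top and the bottom row. -/
def TB (n : ℕ) (S : Finset Cell) : Prop := TopBottom n (S ∩ board n)

/-- The second player has joined the left and the right column. -/
def LR (n : ℕ) (S : Finset Cell) : Prop := LeftRight n (S ∩ board n)

theorem TB.mono {n : ℕ} : ∀ X Y : Finset Cell, X ⊆ Y → TB n X → TB n Y :=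
  fun _ _ h => TopBottom.mono (Finset.inter_subset_inter_right h)

theorem tb_iff {n : ℕ} {S : Finset Cell} (h : S ⊆ board n) : TB n S ↔ TopBottom n S := by
  unfold TB
  rw [Finset.inter_eq_left.2 h]

/-- The handicap: two cells of an acute corner which belong to the second player. -/
def D : Finset Cell := {(0, 0), (1, 0)}

/-- The captured region. -/
def R : Finset Cell := {(0, 0), (1, 0), (0, 1), (0, 2), (1, 1)}

/-- The cell `(1,1)` and one of the cells `(0,1)`, `(0,2)` are as good as the whole region. -/
theorem corner {n : ℕ} (hn : 3 ≤ n) {z : Cell} (hz : z = (0, 1) ∨ z = (0, 2)) (X : Finset Cell)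
    (h : TB n (X ∪ R)) : TB n (X ∪ {(1, 1), z}) := by
  obtain ⟨p, q, hp, hq, hpS, hc⟩ := h
  have hS : ∀ y : Cell, y ∈ (X ∪ R) ∩ board n → y ∉ R →
      y ∈ (X ∪ {(1, 1), z}) ∩ board n := by
    intro y hy hyR
    rw [Finset.mem_inter, Finset.mem_union] at hy ⊢
    exact ⟨Or.inl (hy.1.resolve_right hyR), hy.2⟩
  have hb : ∀ y : Cell, y = (1, 1) ∨ y = z → y ∈ (X ∪ {(1, 1), z}) ∩ board n := by
    intro y hy
    rw [Finset.mem_inter, Finset.mem_union, Finset.mem_insert, Finset.mem_singleton, mem_board]
    refine ⟨Or.inr hy, ?_⟩
    unfold OnBoard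
    rcases hy with rfl | rfl
    · simp only
      omega
    · rcases hz with rfl | rfl <;> simp only <;> omega
  have hz1 : Conn ((X ∪ {(1, 1), z}) ∩ board n) z (1, 1) := by
    refine ⟨hb _ (Or.inr rfl), Relation.ReflTransGen.single
      ⟨hb _ (Or.inr rfl), hb _ (Or.inl rfl), ?_⟩⟩
    rcases hz with rfl | rfl <;> simp [Adj]
  have hz0 : z.1 = 0 := by rcases hz with rfl | rfl <;> rfl
  have key : ∀ y : Cell, Relation.ReflTransGen
      (fun u v => u ∈ (X ∪ R) ∩ board n ∧ v ∈ (X ∪ R) ∩ board n ∧ Adj u v) p y →
      y ∈ R ∨ ∃ p' : Cell, p'.1 = 0 ∧ Conn ((X ∪ {(1, 1), z}) ∩ board n) p' y := by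
    intro y hy
    induction hy with
    | refl =>
      by_cases hpR : p ∈ R
      · exact Or.inl hpR
      · exact Or.inr ⟨p, hp, hS p hpS hpR, Relation.ReflTransGen.refl⟩
    | @tail v w _ hvw ih =>
      by_cases hwR : w ∈ R
      · exact Or.inl hwR
      · right
        have hwS := hS w hvw.2.1 hwR
        rcases ih with hvR | ⟨p', hp', hc'⟩
        · -- leaving the region
          have hwb := mem_board.1 (Finset.mem_inter.1 hwS).2
          obtain ⟨w1, w2⟩ := w
          have hw : w1 = 0 ∨ Adj (1, 1) (w1, w2) := by
            have ha := hvw.2.2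
            unfold OnBoard at hwb
            simp only [R, Finset.mem_insert, Finset.mem_singleton, Prod.mk.injEq] at hwR
            simp only [R, Finset.mem_insert, Finset.mem_singleton] at hvR
            unfold Adj at ha ⊢
            rcases hvR with rfl | rfl | rfl | rfl | rfl <;> simp only at ha hwb ⊢ <;> omega
          rcases hw with hw | hw
          · exact ⟨(w1, w2), hw, hwS, Relation.ReflTransGen.refl⟩
          · exact ⟨z, hz0, Conn.snoc hz1 (hb _ (Or.inl rfl)) hwS hw⟩
        · exact ⟨p', hp', Conn.snoc hc' (Conn.mem_right hc') hwS hvw.2.2⟩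
  rcases key q hc with h | ⟨p', hp', hc'⟩
  · exfalso
    simp only [R, Finset.mem_insert, Finset.mem_singleton] at h
    rcases h with rfl | rfl | rfl | rfl | rfl <;> simp only at hq <;> omega
  · exact ⟨p', q, hp', hq, hc'⟩

/-- The first player, to move, wins although the second player owns `D`. -/
theorem handicap {n : ℕ} (hn : 3 ≤ n) : Win (TB n) true (board n \ D) ∅ := by
  have hDb : D ⊆ board n := by
    intro y hy
    rw [mem_board]
    simp only [D, Finset.mem_insert, Finset.mem_singleton] at hy
    unfold OnBoard
    rcases hy with rfl | rfl <;> simp only <;> omega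
  by_contra h
  have h1 := (dual (T := TB n) (T' := LR n) (V := board n) (fun X hX => by
    rw [tb_iff hX]
    unfold LR
    rw [Finset.inter_eq_left.2 Finset.sdiff_subset]
    exact no_draw (by omega) X) (board n \ D).card (board n \ D) ∅ rfl Finset.sdiff_subset
    (Finset.empty_subset _) (Finset.disjoint_empty_right _)).1 h
  rw [Finset.union_empty, Finset.sdiff_sdiff_eq_self hDb] at h1
  have h2 := Win.map (Equiv.prodComm ℤ ℤ) (T' := TB n) (fun X hX => by
    unfold LR at hX
    rw [leftRight_iff] at hX
    have e : tr (X ∩ board n) = tr X ∩ board n := by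
      ext y
      rw [mem_tr, Finset.mem_inter, Finset.mem_inter, mem_tr, ← tr_board n, mem_tr,
        Prod.swap_swap, tr_board]
    rw [e] at hX
    exact hX) h1
  have h3 : Win (TB n) false (board n \ R) R := by
    refine h2.mono TB.mono _ _ ?_ ?_
    · intro y hy
      have hy' : y ∈ tr D := hy
      rw [mem_tr] at hy'
      obtain ⟨y1, y2⟩ := y
      simp only [D, R, Prod.swap_prod_mk, Finset.mem_insert, Finset.mem_singleton,
        Prod.mk.injEq] at hy' ⊢
      omega
    · intro y hy
      have hy' : y ∈ tr (board n \ D) := hy
      have hyb : y ∈ board n := by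
        have := tr_mono (Finset.sdiff_subset (s := board n) (t := D)) hy'
        rwa [tr_board] at this
      rw [Finset.mem_union, Finset.mem_sdiff]
      by_cases hyR : y ∈ R
      · exact Or.inr hyR
      · exact Or.inl ⟨hyb, hyR⟩
  have h4 := h3.unchange (S := R) ∅ (Finset.empty_union _).symm
  have h5 := h4.capture (T := TB n) (c := (1, 1)) (p := (0, 1)) (q := (0, 2)) TB.mono
    (by simp) (corner hn (Or.inl rfl)) (corner hn (Or.inr rfl)) (by simp [R]) (by simp [R])
  refine h (Win.maker _ _ (1, 1) ?_ (h5.mono TB.mono _ _ (Finset.Subset.refl _) ?_))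
  · rw [Finset.mem_sdiff, mem_board]
    unfold OnBoard
    refine ⟨?_, by simp [D]⟩
    simp only
    omega
  · intro y hy
    rw [Finset.mem_union]
    left
    rw [Finset.mem_insert, Finset.mem_insert, Finset.mem_sdiff] at hy
    rw [Finset.mem_erase, Finset.mem_sdiff]
    rcases hy with rfl | rfl | ⟨hyb, hyR⟩
    · refine ⟨by simp, ?_, by simp [D]⟩
      rw [mem_board]
      unfold OnBoard
      simp only
      omega
    · refine ⟨by simp, ?_, by simp [D]⟩
      rw [mem_board]
      unfold OnBoard
      simp only
      omega
    · refine ⟨?_, hyb, ?_⟩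
      · rintro rfl
        exact hyR (by simp [R])
      · intro hyD
        apply hyR
        simp only [D, R, Finset.mem_insert, Finset.mem_singleton] at hyD ⊢
        tauto

/-- From the game without time limit to the game with time limit: wasted moves of the second
player do not help him. -/
theorem firstWins_of_win {n : ℕ} (hn : 1 ≤ n) (k : ℕ) : ∀ E X W : Finset Cell,
    Win (TB n) true E X → ¬ TopBottom n X → E ⊆ board n → X ⊆ board n → W ⊆ board n →
    Disjoint E X → Disjoint E W → Disjoint X W → E.card ≤ 2 * k → FirstWins n k X W := by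
  induction k with
  | zero =>
    intro E X W h hX _ hXb _ _ _ _ hc
    have hE : E = ∅ := Finset.card_eq_zero.1 (by omega)
    subst hE
    exfalso
    cases h with
    | done _ _ _ h => exact hX ((tb_iff hXb).1 h)
    | maker _ _ x hx _ => exact absurd hx (Finset.notMem_empty x)
  | succ k ih =>
    intro E X W h hX hEb hXb hWb hEX hEW hXW hc
    cases h with
    | done _ _ _ h => exact absurd ((tb_iff hXb).1 h) hX
    | maker _ _ x hx hw =>
      have hxX : x ∉ X := fun h => Finset.disjoint_left.1 hEX hx h
      have hxW : x ∉ W := fun h => Finset.disjoint_left.1 hEW hx h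
      have hX'b : insert x X ⊆ board n := Finset.insert_subset (hEb hx) hXb
      refine ⟨x, ⟨mem_board.1 (hEb hx), hxX, hxW⟩, ?_⟩
      by_cases ht : TopBottom n (insert x X)
      · exact Or.inl ht
      · right
        cases hw with
        | done _ _ _ h => exact absurd ((tb_iff hX'b).1 h) ht
        | breaker _ _ hne hall =>
          refine ⟨?_, ?_⟩
          · obtain ⟨y, hy⟩ := hne
            rw [Finset.mem_erase] at hy
            refine ⟨y, mem_board.1 (hEb hy.2), ?_, fun h => Finset.disjoint_left.1 hEW hy.2 h⟩
            rw [Finset.mem_insert]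
            exact fun h => h.elim hy.1 fun h => Finset.disjoint_left.1 hEX hy.2 h
          · intro y hy
            obtain ⟨y0, hy0, hyy⟩ : ∃ y0 ∈ E.erase x, y ∈ E.erase x → y0 = y := by
              by_cases h : y ∈ E.erase x
              · exact ⟨y, h, fun _ => rfl⟩
              · obtain ⟨y0, hy0⟩ := hne
                exact ⟨y0, hy0, fun h' => absurd h' h⟩
            have hw' := hall y0 hy0
            have hE'E : (E.erase x).erase y0 ⊆ E :=
              (Finset.erase_subset _ _).trans (Finset.erase_subset _ _)
            have hW'b : insert y W ⊆ board n :=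
              Finset.insert_subset (mem_board.2 hy.1) hWb
            have d1 : Disjoint ((E.erase x).erase y0) (insert x X) := by
              rw [Finset.disjoint_insert_right]
              refine ⟨fun h => ?_, Finset.disjoint_of_subset_left hE'E hEX⟩
              exact Finset.notMem_erase x E (Finset.mem_of_mem_erase h)
            have d2 : Disjoint ((E.erase x).erase y0) (insert y W) := by
              rw [Finset.disjoint_insert_right]
              refine ⟨fun h => ?_, Finset.disjoint_of_subset_left hE'E hEW⟩
              rw [Finset.mem_erase] at h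
              exact h.1 (hyy h.2).symm
            have d3 : Disjoint (insert x X) (insert y W) := by
              rw [Finset.disjoint_insert_right, Finset.disjoint_insert_left]
              exact ⟨hy.2.1, hxW, hXW⟩
            refine ⟨?_, ?_⟩
            · intro hLR
              have htop := hw'.top TB.mono
              have hsub : insert x X ∪ (E.erase x).erase y0 ⊆ board n :=
                Finset.union_subset hX'b (hE'E.trans hEb)
              refine not_both hn hsub hW'b ?_ ((tb_iff hsub).1 htop) hLR
              rw [Finset.disjoint_union_left]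
              exact ⟨d3, d2⟩
            · refine ih _ _ _ hw' ht (hE'E.trans hEb) hX'b hW'b d1 d2 d3 ?_
              rw [Finset.card_erase_of_mem hy0, Finset.card_erase_of_mem hx]
              omega

theorem card_board (n : ℕ) : (board n).card = n ^ 2 := by
  unfold board
  rw [Finset.card_product, Int.card_Ico]
  simp
  ring

/-- For `n ≥ 3` the first player can force a win with at most `⌈n^2/2⌉ - 1` stones. -/
theorem main {n : ℕ} (hn : 3 ≤ n) : FirstWins n ((n ^ 2 + 1) / 2 - 1) ∅ ∅ := by
  refine firstWins_of_win (by omega) _ (board n \ D) ∅ ∅ (handicap hn) ?_ Finset.sdiff_subset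
    (Finset.empty_subset _) (Finset.empty_subset _) (Finset.disjoint_empty_right _)
    (Finset.disjoint_empty_right _) (Finset.disjoint_empty_right _) ?_
  · rintro ⟨p, q, -, -, h, -⟩
    exact Finset.notMem_empty p h
  · have hDb : D ⊆ board n := by
      intro y hy
      rw [mem_board]
      simp only [D, Finset.mem_insert, Finset.mem_singleton] at hy
      unfold OnBoard
      rcases hy with rfl | rfl <;> simp only <;> omega
    have hD : D.card = 2 := by decide
    rw [Finset.card_sdiff_of_subset hDb, card_board, hD]
    have : 9 ≤ n ^ 2 := by nlinarith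
    omega

end Pool.Agent.HexUp
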