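import Pool.Agent.Lib_helper61.Hex

/-!
# The game of Y: exactly one colour joins the three sides of a triangular board

The triangular board of size `m` consists of the cells `(i, j)`, `0 ≤ i`, `0 ≤ j`, `i + j ≤ m`.
-/

set_option autoImplicit false

namespace Pool.Agent.HexUp

open Pool.Agent.Lib_helper61

/-- The triangular board. -/
def InT (m : ℕ) (p : Cell) : Prop := 0 ≤ p.1 ∧ 0 ≤ p.2 ∧ p.1 + p.2 ≤ m

/-- One step between two cells of the colour `b`. -/
def St (m : ℕ) (c : Cell → Bool) (b : Bool) (p q : Cell) : Prop :=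
  (InT m p ∧ c p = b) ∧ (InT m q ∧ c q = b) ∧ Adj p q

/-- The colour `b` joins the three sides. -/
def HasY (m : ℕ) (c : Cell → Bool) (b : Bool) : Prop :=
  ∃ x u v w : Cell, (InT m x ∧ c x = b) ∧ u.1 = 0 ∧ v.2 = 0 ∧ w.1 + w.2 = m ∧
    Relation.ReflTransGen (St m c b) x u ∧ Relation.ReflTransGen (St m c b) x v ∧
    Relation.ReflTransGen (St m c b) x w

/-- The majority colour of the triangle with lower corner `t`. -/
def red (c : Cell → Bool) (t : Cell) : Bool :=
  (c t && c (t.1 + 1, t.2)) || (c t && c (t.1, t.2 + 1)) || (c (t.1 + 1, t.2) && c (t.1, t.2 + 1))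

/-- The cell `a` belongs to the triangle `t`. -/
def Tch (t a : Cell) : Prop := (a.1 = t.1 ∧ a.2 = t.2) ∨ (a.1 = t.1 + 1 ∧ a.2 = t.2) ∨
  (a.1 = t.1 ∧ a.2 = t.2 + 1)

theorem adj_symm {p q : Cell} (h : Adj p q) : Adj q p := by
  unfold Adj at h ⊢
  omega

theorem adj_ne {p q : Cell} (h : Adj p q) : p ≠ q := by
  rintro rfl
  unfold Adj at h
  omega

theorem Tch.cases {t a : Cell} (h : Tch t a) :
    a = t ∨ a = (t.1 + 1, t.2) ∨ a = (t.1, t.2 + 1) := by
  obtain ⟨t1, t2⟩ := t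
  obtain ⟨a1, a2⟩ := a
  unfold Tch at h
  simp only [Prod.mk.injEq] at h ⊢
  exact h

theorem red_of {c : Cell → Bool} {b : Bool} {t a a' : Cell} (h : Tch t a) (h' : Tch t a')
    (hne : a ≠ a') (ha : c a = b) (ha' : c a' = b) : red c t = b := by
  unfold red
  rcases h.cases with rfl | rfl | rfl <;> rcases h'.cases with rfl | rfl | rfl <;>
    first
      | exact absurd rfl hne
      | (rw [ha, ha']; cases b <;> simp)

/-- Two cells of one triangle. -/
theorem tch_adj {t a a' : Cell} (h : Tch t a) (h' : Tch t a') : a = a' ∨ Adj a a' := by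
  obtain ⟨t1, t2⟩ := t
  obtain ⟨a1, a2⟩ := a
  obtain ⟨b1, b2⟩ := a'
  unfold Tch at h h'
  unfold Adj
  simp only [Prod.mk.injEq] at h h' ⊢
  omega

/-- Two triangles with a common cell. -/
theorem tch_adj' {t t' a : Cell} (h : Tch t a) (h' : Tch t' a) : t = t' ∨ Adj t t' := by
  obtain ⟨t1, t2⟩ := t
  obtain ⟨s1, s2⟩ := t'
  obtain ⟨a1, a2⟩ := a
  unfold Tch at h h'
  unfold Adj
  simp only [Prod.mk.injEq] at h h' ⊢
  omega

/-- Every pair of adjacent cells is contained in a triangle. -/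
theorem exists_tch {m : ℕ} {a a' : Cell} (ha : InT (m + 1) a) (ha' : InT (m + 1) a')
    (h : Adj a a') : ∃ t, InT m t ∧ Tch t a ∧ Tch t a' := by
  obtain ⟨a1, a2⟩ := a
  obtain ⟨b1, b2⟩ := a'
  unfold InT at ha ha'
  unfold Adj at h
  push_cast at ha ha'
  simp only at ha ha' h
  refine ⟨(min a1 b1, min a2 b2), ?_, ?_, ?_⟩
  · unfold InT
    simp only
    omega
  · unfold Tch
    simp only
    omega
  · unfold Tch
    simp only
    omega

theorem InT.of_tch {m : ℕ} {t a : Cell} (ht : InT m t) (h : Tch t a) : InT (m + 1) a := by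
  unfold InT at ht ⊢
  unfold Tch at h
  push_cast
  omega

/-- Reduction. -/
theorem HasY.push {m : ℕ} {c : Cell → Bool} {b : Bool} (h : HasY (m + 1) c b) :
    HasY m (red c) b := by
  obtain ⟨x, u, v, w, hx, hu, hv, hw, pu, pv, pw⟩ := h
  -- a first step
  obtain ⟨x1, hx1⟩ : ∃ x1, St (m + 1) c b x x1 := by
    rcases Relation.ReflTransGen.cases_head pu with rfl | ⟨z, hz, -⟩
    · rcases Relation.ReflTransGen.cases_head pv with rfl | ⟨z, hz, -⟩
      · rcases Relation.ReflTransGen.cases_head pw with rfl | ⟨z, hz, -⟩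
        · exfalso
          push_cast at hw
          omega
        · exact ⟨z, hz⟩
      · exact ⟨z, hz⟩
    · exact ⟨z, hz⟩
  obtain ⟨t0, ht0, h0x, h0x1⟩ := exists_tch hx1.1.1 hx1.2.1.1 hx1.2.2
  have hc0 : red c t0 = b := red_of h0x h0x1 (adj_ne hx1.2.2) hx1.1.2 hx1.2.1.2
  have key : ∀ {y : Cell}, Relation.ReflTransGen (St (m + 1) c b) x y →
      ∃ t, (InT m t ∧ red c t = b) ∧ Tch t y ∧
        Relation.ReflTransGen (St m (red c) b) t0 t := by
    intro y hy
    induction hy with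
    | refl => exact ⟨t0, ⟨ht0, hc0⟩, h0x, Relation.ReflTransGen.refl⟩
    | @tail y z _ hyz ih =>
      obtain ⟨t, ht, hty, htr⟩ := ih
      obtain ⟨s, hs, hsy, hsz⟩ := exists_tch hyz.1.1 hyz.2.1.1 hyz.2.2
      have hcs : red c s = b := red_of hsy hsz (adj_ne hyz.2.2) hyz.1.2 hyz.2.1.2
      refine ⟨s, ⟨hs, hcs⟩, hsz, ?_⟩
      rcases tch_adj' hty hsy with rfl | h
      · exact htr
      · exact htr.tail ⟨ht, ⟨hs, hcs⟩, h⟩
  obtain ⟨tu, htu, hTu, hru⟩ := key pu
  obtain ⟨tv, htv, hTv, hrv⟩ := key pv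
  obtain ⟨tw, htw, hTw, hrw⟩ := key pw
  have h1 := htu.1
  have h2 := htv.1
  have h3 := htw.1
  unfold InT at h1 h2 h3
  unfold Tch at hTu hTv hTw
  push_cast at hw
  refine ⟨t0, tu, tv, tw, ⟨ht0, hc0⟩, ?_, ?_, ?_, hru, hrv, hrw⟩
  · omega
  · omega
  · omega

/-- A triangle of colour `b` has, apart from one cell, only cells of colour `b`. -/
theorem exists_of_red {c : Cell → Bool} {b : Bool} {t p q : Cell} (h : red c t = b)
    (hp : Tch t p) (hq : Tch t q) (hne : p ≠ q) : c p = b ∨ c q = b := by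
  unfold red at h
  rcases hp.cases with rfl | rfl | rfl <;> rcases hq.cases with rfl | rfl | rfl
  · exact absurd rfl hne
  · revert h
    cases c p <;> cases c (p.1 + 1, p.2) <;> cases c (p.1, p.2 + 1) <;> cases b <;> simp
  · revert h
    cases c p <;> cases c (p.1 + 1, p.2) <;> cases c (p.1, p.2 + 1) <;> cases b <;> simp
  · revert h
    cases c q <;> cases c (q.1 + 1, q.2) <;> cases c (q.1, q.2 + 1) <;> cases b <;> simp
  · exact absurd rfl hne
  · revert h
    cases c t <;> cases c (t.1 + 1, t.2) <;> cases c (t.1, t.2 + 1) <;> cases b <;> simp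
  · revert h
    cases c q <;> cases c (q.1 + 1, q.2) <;> cases c (q.1, q.2 + 1) <;> cases b <;> simp
  · revert h
    cases c t <;> cases c (t.1 + 1, t.2) <;> cases c (t.1, t.2 + 1) <;> cases b <;> simp
  · exact absurd rfl hne

/-- Two neighbouring triangles of colour `b` are joined. -/
theorem bridge {c : Cell → Bool} {b : Bool} {t s : Cell} (ht : red c t = b) (hs : red c s = b)
    (h : Adj t s) : ∃ p q, Tch t p ∧ c p = b ∧ Tch s q ∧ c q = b ∧ (p = q ∨ Adj p q) := by
  -- the common cell and two adjacent cells which are different from it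
  obtain ⟨a, p, q, hta, hsa, hp, hpa, hq, hqa, hpq⟩ : ∃ a p q, Tch t a ∧ Tch s a ∧
      Tch t p ∧ p ≠ a ∧ Tch s q ∧ q ≠ a ∧ Adj p q := by
    obtain ⟨i, j⟩ := t
    obtain ⟨s1, s2⟩ := s
    unfold Adj at h
    simp only at h
    rcases h with ⟨rfl, rfl | rfl⟩ | ⟨rfl, rfl | rfl⟩ | ⟨rfl, rfl | rfl⟩
    · refine ⟨(s1, j + 1), (s1 + 1, j), (s1 + 1, j + 1), ?_, ?_, ?_, ?_, ?_, ?_, ?_⟩ <;> simp [Tch, Adj]
    · refine ⟨(s1, j), (s1 + 1, j), (s1 + 1, j - 1), ?_, ?_, ?_, ?_, ?_, ?_, ?_⟩ <;> simp [Tch, Adj]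
    · refine ⟨(i + 1, s2), (i, s2 + 1), (i + 1, s2 + 1), ?_, ?_, ?_, ?_, ?_, ?_, ?_⟩ <;> simp [Tch, Adj]
    · refine ⟨(i + 1, j), (i, j), (i + 1, j - 1), ?_, ?_, ?_, ?_, ?_, ?_, ?_⟩ <;> simp [Tch, Adj]
    · refine ⟨(i, s2), (i, s2 + 1), (i - 1, s2 + 1), ?_, ?_, ?_, ?_, ?_, ?_, ?_⟩ <;> simp [Tch, Adj]
    · refine ⟨(i, j + 1), (i, j), (i - 1, j + 1), ?_, ?_, ?_, ?_, ?_, ?_, ?_⟩ <;> simp [Tch, Adj]
  by_cases ha : c a = b
  · exact ⟨a, a, hta, ha, hsa, ha, Or.inl rfl⟩
  · exact ⟨p, q, hp, (exists_of_red ht hp hta hpa).resolve_right ha, hq,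
      (exists_of_red hs hq hsa hqa).resolve_right ha, Or.inr hpq⟩

/-- Cells of one triangle are joined. -/
theorem tch_path {m : ℕ} {c : Cell → Bool} {b : Bool} {t p q : Cell} (ht : InT m t)
    (hp : Tch t p) (hcp : c p = b) (hq : Tch t q) (hcq : c q = b) :
    Relation.ReflTransGen (St (m + 1) c b) p q := by
  rcases tch_adj hp hq with rfl | h
  · exact Relation.ReflTransGen.refl
  · exact Relation.ReflTransGen.single ⟨⟨ht.of_tch hp, hcp⟩, ⟨ht.of_tch hq, hcq⟩, h⟩

/-- The converse of the reduction. -/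
theorem HasY.lift {m : ℕ} {c : Cell → Bool} {b : Bool} (h : HasY m (red c) b) :
    HasY (m + 1) c b := by
  obtain ⟨x, u, v, w, hx, hu, hv, hw, pu, pv, pw⟩ := h
  have hT : ∀ {y : Cell}, Relation.ReflTransGen (St m (red c) b) x y →
      InT m y ∧ red c y = b := by
    intro y hy
    rcases Relation.ReflTransGen.cases_tail hy with rfl | ⟨z, -, hz⟩
    · exact hx
    · exact hz.2.1
  -- a cell of colour `b` in every triangle of colour `b`
  have hex : ∀ {t : Cell}, red c t = b → ∀ {p q : Cell}, Tch t p → Tch t q → p ≠ q →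
      ∃ y, (y = p ∨ y = q) ∧ Tch t y ∧ c y = b := by
    intro t ht p q hp hq hne
    rcases exists_of_red ht hp hq hne with h | h
    · exact ⟨p, Or.inl rfl, hp, h⟩
    · exact ⟨q, Or.inr rfl, hq, h⟩
  obtain ⟨x0, -, hx0, hcx0⟩ := hex hx.2 (p := x) (q := (x.1 + 1, x.2)) (by simp [Tch])
    (by simp [Tch]) (by intro h; have := congrArg Prod.fst h; simp at this)
  have key : ∀ {s : Cell}, Relation.ReflTransGen (St m (red c) b) x s → ∀ y, Tch s y → c y = b →
      Relation.ReflTransGen (St (m + 1) c b) x0 y := by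
    intro s hs
    induction hs with
    | refl => exact fun y hy hcy => tch_path hx.1 hx0 hcx0 hy hcy
    | @tail t s _ hts ih =>
      intro y hy hcy
      obtain ⟨p, q, hp, hcp, hq, hcq, hpq⟩ := bridge hts.1.2 hts.2.1.2 hts.2.2
      have h1 := ih p hp hcp
      have h2 : Relation.ReflTransGen (St (m + 1) c b) p q := by
        rcases hpq with rfl | h
        · exact Relation.ReflTransGen.refl
        · exact Relation.ReflTransGen.single
            ⟨⟨hts.1.1.of_tch hp, hcp⟩, ⟨hts.2.1.1.of_tch hq, hcq⟩, h⟩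
      exact (h1.trans h2).trans (tch_path hts.2.1.1 hq hcq hy hcy)
  obtain ⟨u', hu1, hu', hcu'⟩ := hex (hT pu).2 (p := u) (q := (u.1, u.2 + 1)) (by simp [Tch])
    (by simp [Tch]) (by intro h; have := congrArg Prod.snd h; simp at this)
  obtain ⟨v', hv1, hv', hcv'⟩ := hex (hT pv).2 (p := v) (q := (v.1 + 1, v.2)) (by simp [Tch])
    (by simp [Tch]) (by intro h; have := congrArg Prod.fst h; simp at this)
  obtain ⟨w', hw1, hw', hcw'⟩ := hex (hT pw).2 (p := (w.1 + 1, w.2)) (q := (w.1, w.2 + 1))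
    (by simp [Tch]) (by simp [Tch]) (by intro h; have := congrArg Prod.fst h; simp at this)
  refine ⟨x0, u', v', w', ⟨hx.1.of_tch hx0, hcx0⟩, ?_, ?_, ?_, key pu u' hu' hcu',
    key pv v' hv' hcv', key pw w' hw' hcw'⟩
  · rcases hu1 with rfl | rfl <;> simpa using hu
  · rcases hv1 with rfl | rfl <;> simpa using hv
  · push_cast
    rcases hw1 with rfl | rfl
    · simp only
      omega
    · simp only
      omega

theorem hasY_zero {c : Cell → Bool} {b : Bool} : HasY 0 c b ↔ c (0, 0) = b := by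
  constructor
  · rintro ⟨x, -, -, -, ⟨⟨h1, h2, h3⟩, h4⟩, -⟩
    obtain ⟨x1, x2⟩ := x
    simp only [Nat.cast_zero] at h1 h2 h3
    obtain rfl : x1 = 0 := by omega
    obtain rfl : x2 = 0 := by omega
    exact h4
  · intro h
    exact ⟨(0, 0), (0, 0), (0, 0), (0, 0), ⟨by simp [InT], h⟩, rfl, rfl, by simp,
      Relation.ReflTransGen.refl, Relation.ReflTransGen.refl, Relation.ReflTransGen.refl⟩

/-- Some colour joins the three sides. -/
theorem exists_hasY (m : ℕ) : ∀ c : Cell → Bool, ∃ b, HasY m c b := by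
  induction m with
  | zero => exact fun c => ⟨c (0, 0), hasY_zero.2 rfl⟩
  | succ m ih =>
    intro c
    obtain ⟨b, hb⟩ := ih (red c)
    exact ⟨b, hb.lift⟩

/-- Only one colour joins the three sides. -/
theorem HasY.unique {m : ℕ} : ∀ {c : Cell → Bool} {b b' : Bool}, HasY m c b → HasY m c b' →
    b = b' := by
  induction m with
  | zero =>
    intro c b b' h h'
    rw [hasY_zero] at h h'
    rw [← h, ← h']
  | succ m ih => exact fun h h' => ih h.push h'.push

end Pool.Agent.HexUp
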